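import Pool.Agent.Helper227.CD.Wt

set_option autoImplicit false

namespace Pool.Agent.H851Z.LR

open Pool.Agent.Helper227 MeasureTheory Encodable
open scoped ENNReal

/-- lengths of the coding blocks -/
def nn (k : ℕ) : ℕ := k * (k + 3)

theorem primrec_nn : Primrec nn :=
  Primrec.nat_mul.comp Primrec.id (Primrec.nat_add.comp Primrec.id (Primrec.const 3))

theorem nn_succ (k : ℕ) : nn k + k + 3 ≤ nn (k + 1) := by
  unfold nn; nlinarith

theorem le_nn (k : ℕ) : k ≤ nn k := by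
  unfold nn; nlinarith

/-- enough room is left outside `U` above the string -/
def good (U : Set (ℕ → Bool)) (k : ℕ) (ζ : List Bool) : Prop :=
  (1 / 2 : ℝ) ^ (ζ.length + k + 1) ≤ lam.real (cyl ζ \ U)

theorem two_good {U : Set (ℕ → Bool)} {k m : ℕ} {ζ : List Bool} (hζ : good U k ζ)
    (hm : ζ.length + k + 3 ≤ m) :
    ∃ ρ ρ', ρ ≠ ρ' ∧ ρ ∈ CD.ext ζ m ∧ ρ' ∈ CD.ext ζ m ∧ good U (k + 1) ρ ∧ good U (k + 1) ρ' := by
  classical
  by_contra hcon
  have hcard : ((CD.ext ζ m).filter (good U (k + 1))).card ≤ 1 := by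
    rw [Finset.card_le_one]
    intro a ha b hb
    rw [Finset.mem_filter] at ha hb
    by_contra hne
    exact hcon ⟨a, b, hne, ha.1, hb.1, ha.2, hb.2⟩
  have hsub : cyl ζ \ U ⊆ ⋃ ρ ∈ CD.ext ζ m, (cyl ρ \ U) := by
    rintro X ⟨h1, h2⟩
    simp only [Set.mem_iUnion, exists_prop]
    refine ⟨pre X m, ?_, mem_cyl_pre X m, h2⟩
    rw [CD.mem_ext]
    refine ⟨by simp, ?_⟩
    rw [mem_cyl_iff] at h1
    rw [← h1]
    exact pre_prefix X (by omega)
  have h1 : lam.real (cyl ζ \ U) ≤ ∑ ρ ∈ CD.ext ζ m, lam.real (cyl ρ \ U) :=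
    (measureReal_mono hsub (measure_ne_top _ _)).trans (measureReal_biUnion_finset_le _ _)
  rw [← Finset.sum_filter_add_sum_filter_not (CD.ext ζ m) (good U (k + 1))] at h1
  have h2 : ∑ ρ ∈ (CD.ext ζ m).filter (good U (k + 1)), lam.real (cyl ρ \ U) ≤ (1 / 2) ^ m := by
    have h3 : ∀ ρ ∈ (CD.ext ζ m).filter (good U (k + 1)), lam.real (cyl ρ \ U) ≤ (1 / 2) ^ m := by
      intro ρ hρ
      rw [Finset.mem_filter, CD.mem_ext] at hρ
      refine (measureReal_mono Set.sdiff_subset).trans ?_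
      rw [real_cyl, hρ.1.1]
    refine (Finset.sum_le_card_nsmul _ _ _ h3).trans ?_
    rw [nsmul_eq_mul]
    have h4 : (((CD.ext ζ m).filter (good U (k + 1))).card : ℝ) ≤ 1 := by exact_mod_cast hcard
    have h5 : (0 : ℝ) ≤ (1 / 2) ^ m := by positivity
    nlinarith
  have h3 : ∑ ρ ∈ (CD.ext ζ m).filter (fun ρ => ¬ good U (k + 1) ρ), lam.real (cyl ρ \ U) ≤
      (1 / 2) ^ (ζ.length + k + 2) := by
    have h4 : ∀ ρ ∈ (CD.ext ζ m).filter (fun ρ => ¬ good U (k + 1) ρ),
        lam.real (cyl ρ \ U) ≤ (1 / 2) ^ (m + k + 2) := by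
      intro ρ hρ
      rw [Finset.mem_filter, CD.mem_ext] at hρ
      have h5 := hρ.2
      unfold good at h5
      rw [hρ.1.1] at h5
      exact (not_le.1 h5).le
    refine (Finset.sum_le_card_nsmul _ _ _ h4).trans ?_
    rw [nsmul_eq_mul]
    have h5 : (((CD.ext ζ m).filter (fun ρ => ¬ good U (k + 1) ρ)).card : ℝ) ≤
        2 ^ (m - ζ.length) := by
      have h6 := Finset.card_filter_le (CD.ext ζ m) (fun ρ => ¬ good U (k + 1) ρ)
      rw [CD.card_ext (by omega)] at h6
      exact_mod_cast h6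
    have h6 : (2 : ℝ) ^ (m - ζ.length) * (1 / 2) ^ (m + k + 2) = (1 / 2) ^ (ζ.length + k + 2) := by
      have h7 : m + k + 2 = (m - ζ.length) + (ζ.length + k + 2) := by omega
      rw [h7, pow_add (1 / 2 : ℝ) (m - ζ.length), ← mul_assoc, ← mul_pow]
      norm_num
    rw [← h6]
    exact mul_le_mul_of_nonneg_right h5 (by positivity)
  have h4 : (1 / 2 : ℝ) ^ m ≤ (1 / 2) ^ (ζ.length + k + 3) :=
    pow_le_pow_of_le_one (by norm_num) (by norm_num) hm
  unfold good at hζ
  have h5 : (0 : ℝ) < (1 / 2) ^ (ζ.length + k + 1) := by positivity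
  have h6 : (1 / 2 : ℝ) ^ (ζ.length + k + 2) = (1 / 2) ^ (ζ.length + k + 1) / 2 := by ring
  have h7 : (1 / 2 : ℝ) ^ (ζ.length + k + 3) = (1 / 2) ^ (ζ.length + k + 1) / 4 := by ring
  linarith

/-- the order used for the bit `b` -/
def ltb (b : Bool) (ρ ρ' : List Bool) : Prop :=
  (b = true ∧ encode ρ < encode ρ') ∨ (b = false ∧ encode ρ' < encode ρ)

theorem step_good {U : Set (ℕ → Bool)} {k : ℕ} {ζ : List Bool} (hl : ζ.length = nn k)
    (hζ : good U k ζ) (b : Bool) :
    ∃ ρ, ρ ∈ CD.ext ζ (nn (k + 1)) ∧ good U (k + 1) ρ ∧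
      (∀ ρ' ∈ CD.ext ζ (nn (k + 1)), ltb b ρ ρ' → ¬ good U (k + 1) ρ') ∧
      ∃ ρ' ∈ CD.ext ζ (nn (k + 1)), ltb (!b) ρ ρ' ∧ good U (k + 1) ρ' := by
  classical
  obtain ⟨ρ1, ρ2, hne, h1, h2, g1, g2⟩ := two_good hζ (m := nn (k + 1))
    (by rw [hl]; exact nn_succ k)
  have hS : ((CD.ext ζ (nn (k + 1))).filter (good U (k + 1))).Nonempty :=
    ⟨ρ1, Finset.mem_filter.2 ⟨h1, g1⟩⟩
  have hm1 : ρ1 ∈ (CD.ext ζ (nn (k + 1))).filter (good U (k + 1)) := Finset.mem_filter.2 ⟨h1, g1⟩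
  have hm2 : ρ2 ∈ (CD.ext ζ (nn (k + 1))).filter (good U (k + 1)) := Finset.mem_filter.2 ⟨h2, g2⟩
  have hne' : encode ρ1 ≠ encode ρ2 := fun h => hne (encode_injective h)
  cases b with
  | true =>
    obtain ⟨ρ, hρ, hmax⟩ := Finset.exists_max_image _ (fun ρ : List Bool => encode ρ) hS
    rw [Finset.mem_filter] at hρ
    refine ⟨ρ, hρ.1, hρ.2, ?_, ?_⟩
    · intro ρ' h3 h4 h5
      have := hmax ρ' (Finset.mem_filter.2 ⟨h3, h5⟩)
      simp only [ltb] at h4
      simp at h4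
      omega
    · have a1 := hmax ρ1 hm1
      have a2 := hmax ρ2 hm2
      by_cases h : encode ρ1 < encode ρ
      · exact ⟨ρ1, h1, by simp [ltb, h], g1⟩
      · exact ⟨ρ2, h2, by simp only [ltb]; simp; omega, g2⟩
  | false =>
    obtain ⟨ρ, hρ, hmin⟩ := Finset.exists_min_image _ (fun ρ : List Bool => encode ρ) hS
    rw [Finset.mem_filter] at hρ
    refine ⟨ρ, hρ.1, hρ.2, ?_, ?_⟩
    · intro ρ' h3 h4 h5
      have := hmin ρ' (Finset.mem_filter.2 ⟨h3, h5⟩)
      simp only [ltb] at h4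
      simp at h4
      omega
    · have a1 := hmin ρ1 hm1
      have a2 := hmin ρ2 hm2
      by_cases h : encode ρ < encode ρ1
      · exact ⟨ρ1, h1, by simp [ltb, h], g1⟩
      · exact ⟨ρ2, h2, by simp only [ltb]; simp; omega, g2⟩

theorem not_good_iff {U : Set (ℕ → Bool)} (hU : MeasurableSet U) (k : ℕ) (ζ : List Bool) :
    ¬ good U k ζ ↔ ((2 ^ (k + 1) - 1 : ℕ) : ℝ≥0∞) / ((2 ^ (ζ.length + k + 1) : ℕ) : ℝ≥0∞) <
      lam (cyl ζ ∩ U) := by
  have h1 : lam.real (cyl ζ ∩ U) + lam.real (cyl ζ \ U) = (1 / 2) ^ ζ.length := by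
    rw [measureReal_inter_add_sdiff hU, real_cyl]
  have h2 : ((2 ^ (k + 1) - 1 : ℕ) : ℝ≥0∞) / ((2 ^ (ζ.length + k + 1) : ℕ) : ℝ≥0∞) ≠ ⊤ :=
    ENNReal.div_ne_top (ENNReal.natCast_ne_top _) (by positivity)
  rw [← ENNReal.toReal_lt_toReal h2 (measure_ne_top _ _), ENNReal.toReal_div,
    ENNReal.toReal_natCast, ENNReal.toReal_natCast, ← measureReal_def]
  have h3 : ((2 ^ (k + 1) - 1 : ℕ) : ℝ) / ((2 ^ (ζ.length + k + 1) : ℕ) : ℝ) =
      (1 / 2) ^ ζ.length - (1 / 2) ^ (ζ.length + k + 1) := by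
    rw [Nat.cast_sub Nat.one_le_two_pow]
    push_cast
    rw [div_eq_iff (by positivity), sub_mul, ← mul_pow]
    have h4 : ζ.length + k + 1 = ζ.length + (k + 1) := by omega
    rw [h4, pow_add (2 : ℝ) ζ.length (k + 1), ← mul_assoc, ← mul_pow]
    norm_num
  rw [h3]
  unfold good
  constructor <;> intro h <;> linarith

theorem si_not_good {E : List Bool × ℕ × List Bool → Prop} (hE : S1 E) (mE : Mono3 E)
    (B : ℕ → Bool) : SI B fun x : ℕ × List Bool => ¬ good (UE E B 1) x.1 x.2 := by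
  let P : (List Bool × ℕ × List Bool) → List Bool → Prop := fun x η =>
    η.take x.2.2.length = x.2.2 ∧ E (x.1, 1, η)
  have hP : S1 fun x : (List Bool × ℕ × List Bool) × List Bool => P x.1 x.2 := by
    refine S1.and (S1.of_prim ?_) (hE.comp ?_)
    · exact Primrec.eq.comp (Primrec.list_take.comp (Primrec.list_length.comp
        (Primrec.snd.comp (Primrec.snd.comp Primrec.fst))) Primrec.snd)
        (Primrec.snd.comp (Primrec.snd.comp Primrec.fst))
    · exact (Primrec.fst.comp Primrec.fst).pair ((Primrec.const 1).pair Primrec.snd)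
  have hset : ∀ β ζ (k : ℕ), {X | ∃ t, P (β, k, ζ) (pre X t)} =
      cyl ζ ∩ {X | ∃ t, E (β, 1, pre X t)} := by
    intro β ζ k
    ext X
    simp only [P, Set.mem_ofPred_eq, Set.mem_inter_iff]
    constructor
    · rintro ⟨t, h1, h2⟩
      refine ⟨?_, t, h2⟩
      have h3 : ζ <+: pre X t := by rw [← h1]; exact List.take_prefix _ _
      rw [mem_cyl_iff]
      exact (pre_eq_of_prefix h3).symm
    · rintro ⟨h1, t, h2⟩
      refine ⟨max t ζ.length, ?_, mE _ _ _ _ _ (List.prefix_refl _) (pre_prefix X (le_max_left _ _)) h2⟩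
      rw [take_pre _ _ _ (le_max_right _ _)]
      exact mem_cyl_iff.1 h1
  have hS := s1_measure_gt hP (a := fun x => 2 ^ (x.2.1 + 1) - 1)
    (b := fun x => 2 ^ (x.2.2.length + x.2.1 + 1))
    (Primrec.nat_sub.comp (primrec_pow.comp (Primrec.const 2)
      (Primrec.succ.comp (Primrec.fst.comp Primrec.snd))) (Primrec.const 1))
    (primrec_pow.comp (Primrec.const 2) (Primrec.succ.comp (Primrec.nat_add.comp
      (Primrec.list_length.comp (Primrec.snd.comp Primrec.snd)) (Primrec.fst.comp Primrec.snd))))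
    (fun x => by positivity)
  refine ⟨_, hS, ?_, ?_⟩
  · rintro σ τ ⟨k, ζ⟩ h h1
    simp only [hset] at h1 ⊢
    refine h1.trans_le (measure_mono (Set.inter_subset_inter_right _ ?_))
    rintro X ⟨t, ht⟩
    exact ⟨t, mE _ _ _ _ _ h (List.prefix_refl _) ht⟩
  · rintro ⟨k, ζ⟩
    simp only [hset]
    rw [not_good_iff (measurableSet_UE E B 1)]
    have hmono : Monotone fun s => cyl ζ ∩ {X | ∃ t, E (pre B s, 1, pre X t)} := by
      intro s s' hss
      refine Set.inter_subset_inter_right _ ?_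
      rintro X ⟨t, ht⟩
      exact ⟨t, mE _ _ _ _ _ (pre_prefix B hss) (List.prefix_refl _) ht⟩
    have hU : cyl ζ ∩ UE E B 1 = ⋃ s, cyl ζ ∩ {X | ∃ t, E (pre B s, 1, pre X t)} := by
      ext X
      simp only [UE, Set.mem_inter_iff, Set.mem_ofPred_eq, Set.mem_iUnion]
      constructor
      · rintro ⟨h1, s, h2⟩
        exact ⟨s, h1, h2⟩
      · rintro ⟨s, h1, h2⟩
        exact ⟨h1, s, h2⟩
    rw [hU, hmono.measure_iUnion, lt_iSup_iff]

theorem si_pre (B : ℕ → Bool) : SI B fun x : List Bool => pre B x.length = x := by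
  have h1 : SI B fun x : List Bool => ∀ i < x.length, B i = x.getD i false := by
    refine SI.all_lt (α := List Bool) (p := fun x i => B i = x.getD i false)
      (f := fun x => x.length) ?_ Primrec.list_length
    exact SI.query.comp (f := fun z : List Bool × ℕ => (z.2, z.1.getD z.2 false))
      (Primrec.snd.pair ((Primrec.list_getD false).comp Primrec.fst Primrec.snd))
  refine h1.of_eq fun σ => ?_
  constructor
  · intro h3
    refine List.ext_getElem (by simp) fun i h5 h6 => ?_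
    rw [getElem_pre, h3 i h6]
    simp [h6]
  · intro h i hi
    rw [← h, pre_getD B _ _ _ hi]

/-- The Kucera-Gacs theorem relative to an oracle. -/
theorem kucera_gacs (B X : ℕ → Bool) : ∃ Z, MLR B Z ∧ TLe X (join B Z) := by
  classical
  obtain ⟨E, hE, mE, hEm, hEU⟩ := exists_universal
  obtain ⟨U, hU⟩ : ∃ U, U = UE E B 1 := ⟨_, rfl⟩
  have hUm : MeasurableSet U := hU ▸ measurableSet_UE E B 1
  have h0 : good U 0 [] := by
    unfold good
    have h1 : lam.real (cyl [] ∩ U) + lam.real (cyl [] \ U) = (1 / 2) ^ ([] : List Bool).length := by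
      rw [measureReal_inter_add_sdiff hUm, real_cyl]
    have h2 : lam.real (cyl [] ∩ U) ≤ (1 / 2) ^ 1 := by
      refine (measureReal_mono Set.inter_subset_right).trans ?_
      rw [measureReal_def, ← real_half_pow]
      refine ENNReal.toReal_mono (by simp) ?_
      rw [hU]
      exact hEm B 1
    simp only [List.length_nil, pow_zero, pow_one, zero_add] at h1 h2 ⊢
    linarith
  have hstep : ∀ (k : ℕ) (ζ : {ζ : List Bool // ζ.length = nn k ∧ good U k ζ}),
      ∃ ρ : {ζ : List Bool // ζ.length = nn (k + 1) ∧ good U (k + 1) ζ}, ζ.1 <+: ρ.1 ∧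
      (∀ ρ' ∈ CD.ext ζ.1 (nn (k + 1)), ltb (X k) ρ.1 ρ' → ¬ good U (k + 1) ρ') ∧
      ∃ ρ' ∈ CD.ext ζ.1 (nn (k + 1)), ltb (!(X k)) ρ.1 ρ' ∧ good U (k + 1) ρ' := by
    intro k ζ
    obtain ⟨ρ, h1, h2, h3, h4⟩ := step_good ζ.2.1 ζ.2.2 (X k)
    rw [CD.mem_ext] at h1
    exact ⟨⟨ρ, h1.1, h2⟩, h1.2, h3, h4⟩
  choose f hf using hstep
  let g : (k : ℕ) → {ζ : List Bool // ζ.length = nn k ∧ good U k ζ} := fun k =>
    Nat.rec (motive := fun k => {ζ : List Bool // ζ.length = nn k ∧ good U k ζ})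
      ⟨[], by simp [nn], h0⟩ (fun k ζ => f k ζ) k
  have hg : ∀ k, g (k + 1) = f k (g k) := fun k => rfl
  obtain ⟨Z, hZ⟩ := exists_limit (fun k => (g k).1) (fun k => by rw [hg]; exact (hf k (g k)).1)
    (fun k => by rw [(g k).2.1]; exact le_nn k)
  have hZ' : ∀ k, pre Z (nn k) = (g k).1 := fun k => by
    have := hZ k
    rwa [(g k).2.1] at this
  refine ⟨Z, ?_, ?_⟩
  · rw [hEU]
    refine ⟨1, ?_⟩
    rintro ⟨s, t, h⟩
    have h1 := (g t).2.2
    unfold good at h1
    have h2 : cyl (g t).1 \ U = ∅ := by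
      rw [Set.sdiff_eq_empty]
      intro Y hY
      have hYU : Y ∈ UE E B 1 → Y ∈ U := fun h => hU ▸ h
      refine hYU ⟨s, nn t, mE _ _ _ _ _ (List.prefix_refl _) ?_ h⟩
      rw [mem_cyl_iff, (g t).2.1] at hY
      rw [hY, ← hZ' t]
      exact pre_prefix Z (le_nn t)
    rw [h2] at h1
    simp only [measureReal_empty] at h1
    exact absurd h1 (not_le.2 (by positivity))
  · rw [tLe_iff_SI]
    have hbad : SI (join B Z) fun x : ℕ × List Bool => ¬ good U x.1 x.2 := by
      rw [hU]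
      exact (si_not_good hE mE B).trans (tLe_join_left B Z)
    have hpre : SI (join B Z) fun x : List Bool => pre Z x.length = x :=
      (si_pre Z).trans (tLe_join_right B Z)
    have hmain : SI (join B Z) fun x : ℕ × Bool => ∃ ζ : List Bool,
        (pre Z ζ.length = ζ ∧ ζ.length = nn (x.1 + 1)) ∧ ∀ ρ' ∈ allStr (nn (x.1 + 1)),
          (¬ (ρ'.take (nn x.1) = ζ.take (nn x.1) ∧ ltb x.2 ζ ρ')) ∨ ¬ good U (x.1 + 1) ρ' := by
      refine SI.ex (p := fun (x : ℕ × Bool) (ζ : List Bool) =>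
        (pre Z ζ.length = ζ ∧ ζ.length = nn (x.1 + 1)) ∧ ∀ ρ' ∈ allStr (nn (x.1 + 1)),
          (¬ (ρ'.take (nn x.1) = ζ.take (nn x.1) ∧ ltb x.2 ζ ρ')) ∨ ¬ good U (x.1 + 1) ρ')
        (SI.and (SI.and (hpre.comp Primrec.snd) (SI.of_prim ?_)) ?_)
      · exact Primrec.eq.comp (Primrec.list_length.comp Primrec.snd)
          (primrec_nn.comp (Primrec.succ.comp (Primrec.fst.comp Primrec.fst)))
      · refine SI.all_mem (α := (ℕ × Bool) × List Bool) (f := fun x => allStr (nn (x.1.1 + 1)))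
          (p := fun x ρ' => (¬ (ρ'.take (nn x.1.1) = x.2.take (nn x.1.1) ∧ ltb x.1.2 x.2 ρ')) ∨
            ¬ good U (x.1.1 + 1) ρ') (SI.or (SI.of_prim ?_) ?_) ?_
        · have e1 : Primrec fun x : ((ℕ × Bool) × List Bool) × List Bool => nn x.1.1.1 :=
            primrec_nn.comp (Primrec.fst.comp (Primrec.fst.comp Primrec.fst))
          have e2 : Primrec fun x : ((ℕ × Bool) × List Bool) × List Bool => x.1.1.2 :=
            Primrec.snd.comp (Primrec.fst.comp Primrec.fst)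
          have e3 : Primrec fun x : ((ℕ × Bool) × List Bool) × List Bool => encode x.1.2 :=
            Primrec.encode.comp (Primrec.snd.comp Primrec.fst)
          have e4 : Primrec fun x : ((ℕ × Bool) × List Bool) × List Bool => encode x.2 :=
            Primrec.encode.comp Primrec.snd
          refine PrimrecPred.not (PrimrecPred.and ?_ ?_)
          · exact Primrec.eq.comp (Primrec.list_take.comp e1 Primrec.snd)
              (Primrec.list_take.comp e1 (Primrec.snd.comp Primrec.fst))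
          · unfold ltb
            exact PrimrecPred.or
              (PrimrecPred.and (Primrec.eq.comp e2 (Primrec.const true)) (Primrec.nat_lt.comp e3 e4))
              (PrimrecPred.and (Primrec.eq.comp e2 (Primrec.const false)) (Primrec.nat_lt.comp e4 e3))
        · exact hbad.comp (f := fun x : ((ℕ × Bool) × List Bool) × List Bool => (x.1.1.1 + 1, x.2))
            ((Primrec.succ.comp (Primrec.fst.comp (Primrec.fst.comp Primrec.fst))).pair Primrec.snd)
        · exact primrec_allStr.comp (primrec_nn.comp (Primrec.succ.comp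
            (Primrec.fst.comp Primrec.fst)))
    refine hmain.of_eq ?_
    rintro ⟨k, b⟩
    simp only
    obtain ⟨-, h3, ρ0, h4, h5, h6⟩ := hf k (g k)
    rw [← hg] at h3 h5
    have hnn : nn k ≤ nn (k + 1) := by have := nn_succ k; omega
    have htake : (g (k + 1)).1.take (nn k) = (g k).1 := by
      rw [← hZ' (k + 1), take_pre _ _ _ hnn, hZ']
    constructor
    · rintro ⟨ζ, ⟨h7, h8⟩, h9⟩
      rw [h8, hZ'] at h7
      subst h7
      by_contra hne
      have hb : b = !(X k) := by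
        cases b <;> cases hX : X k <;> simp_all
      rw [CD.mem_ext] at h4
      rcases h9 ρ0 (mem_allStr.2 h4.1) with h | h
      · apply h
        refine ⟨?_, by rw [hb]; exact h5⟩
        rw [htake]
        have h10 := List.prefix_iff_eq_take.1 h4.2
        rw [(g k).2.1] at h10
        exact h10.symm
      · exact h h6
    · rintro rfl
      refine ⟨(g (k + 1)).1, ⟨by rw [(g (k + 1)).2.1, hZ'], (g (k + 1)).2.1⟩, ?_⟩
      intro ρ' hρ'
      by_cases h : ρ'.take (nn k) = (g (k + 1)).1.take (nn k) ∧ ltb (X k) (g (k + 1)).1 ρ'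
      · right
        refine h3 ρ' ?_ h.2
        rw [CD.mem_ext]
        refine ⟨mem_allStr.1 hρ', ?_⟩
        rw [← htake, ← h.1]
        exact List.take_prefix _ _
      · exact Or.inl h

end Pool.Agent.H851Z.LR
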