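import Pool.Agent.H851Z.LR.MY

set_option autoImplicit false

namespace Pool.Agent.H851Z.LR

open Pool.Agent.Helper227 MeasureTheory Encodable
open scoped ENNReal

/-- Kraft-Chaitin for a c.e. set of tokens of finite weight -/
theorem kc_s1 {β : Type} [Primcodable β] {R : β → Prop} (hR : S1 R) {g : β → ℕ} (hg : Primrec g)
    {out : β → List Bool} (ho : Primrec out) {b : ℕ}
    (hw : ∀ F : Finset β, (∀ x ∈ F, R x) → ∑ x ∈ F, (1 / 2 : ℝ≥0∞) ^ (g x) ≤ b)
    {U : List Bool →. List Bool} (hU : IsUniversal U) :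
    ∃ c, ∀ x, R x → KU U (out x) ≤ g x + c := by
  classical
  obtain ⟨q, hq, mq, eq⟩ := hR
  let Fst : β × ℕ → Prop := fun y => q y.1 y.2 ∧ ∀ r < y.2, ¬ q y.1 r
  have hFst : PrimrecPred Fst := by
    refine PrimrecPred.and hq ?_
    refine PP.all_lt (α := β × ℕ) (f := fun y => y.2) (p := fun y r => ¬ q y.1 r) ?_ Primrec.snd
    exact PrimrecPred.not (hq.comp (Primrec.fst.comp Primrec.fst) Primrec.snd)
  have huniq : ∀ x r r', Fst (x, r) → Fst (x, r') → r = r' := by
    intro x r r' h1 h2
    rcases Nat.lt_trichotomy r r' with h | h | h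
    · exact absurd h1.1 (h2.2 r h)
    · exact h
    · exact absurd h2.1 (h1.2 r' h)
  let tok : ℕ → Option (β × ℕ) := fun i => (decode₂ (β × ℕ) i).bind fun y =>
    if Fst y then some y else none
  have htok : Primrec tok := by
    refine Primrec.option_bind Primrec.decode₂ ?_
    exact Primrec.ite (hFst.comp Primrec.snd) (Primrec.option_some.comp Primrec.snd)
      (Primrec.const none)
  have ht1 : ∀ y, Fst y → tok (encode y) = some y := by
    intro y hy
    simp only [tok]
    rw [Encodable.decode₂_encode]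
    simp [hy]
  have ht2 : ∀ i y, tok i = some y → i = encode y ∧ Fst y := by
    intro i x h
    simp only [tok, Option.bind_eq_some_iff] at h
    obtain ⟨y, h1, h2⟩ := h
    split_ifs at h2 with h3
    rw [Option.some.injEq] at h2
    rw [← h2]
    exact ⟨(mem_decode₂.1 h1).symm, h3⟩
  let req : ℕ → Option (ℕ × List Bool) := fun i => (tok i).map fun y => (g y.1 + b, out y.1)
  have hreq : Primrec req := by
    refine Primrec.option_map htok ?_
    exact (Primrec.nat_add.comp (hg.comp (Primrec.fst.comp Primrec.snd)) (Primrec.const b)).pair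
      (ho.comp (Primrec.fst.comp Primrec.snd))
  have hb : ∀ n, ∑ i ∈ Finset.range n, KC.wr req i ≤ 1 := by
    intro n
    let S : Finset (β × ℕ) := ((Finset.range n).preimage encode
      (encode_injective.injOn)).filter Fst
    have h1 : ∑ i ∈ Finset.range n, KC.wr req i = ∑ y ∈ S, (1 / 2 : ℝ) ^ (g y.1 + b) := by
      symm
      refine Finset.sum_of_injOn encode (encode_injective.injOn) ?_ ?_ ?_
      · intro y hy
        have hy' : y ∈ S := hy
        simp only [S, Finset.mem_filter, Finset.mem_preimage] at hy'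
        exact hy'.1
      · intro i hi hni
        simp only [KC.wr, req]
        cases hti : tok i with
        | none => simp
        | some y =>
          exfalso
          obtain ⟨h2, h3⟩ := ht2 i y hti
          apply hni
          refine ⟨y, ?_, h2.symm⟩
          simp only [S, Finset.coe_filter, Finset.mem_preimage, Set.mem_ofPred_eq]
          exact ⟨h2 ▸ hi, h3⟩
      · intro y hy
        simp only [S, Finset.mem_filter] at hy
        simp only [KC.wr, req, ht1 y hy.2, Option.map_some, Option.elim]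
    have h2 : ∑ y ∈ S, (1 / 2 : ℝ) ^ (g y.1 + b) =
        ∑ x ∈ S.image Prod.fst, (1 / 2 : ℝ) ^ (g x + b) := by
      rw [Finset.sum_image]
      rintro ⟨x, r⟩ h3 ⟨x', r'⟩ h4 h5
      simp only at h5
      subst h5
      simp only [S, Finset.coe_filter, Set.mem_ofPred_eq] at h3 h4
      rw [huniq x r r' h3.2 h4.2]
    have h3 := hw (S.image Prod.fst) (by
      intro x hx
      rw [Finset.mem_image] at hx
      obtain ⟨y, hy, rfl⟩ := hx
      simp only [S, Finset.mem_filter] at hy
      exact (eq _).2 ⟨_, hy.2.1⟩)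
    have h4 : ∑ x ∈ S.image Prod.fst, (1 / 2 : ℝ) ^ (g x) ≤ b := by
      have h5 := ENNReal.toReal_mono (ENNReal.natCast_ne_top b) h3
      rw [ENNReal.toReal_sum (fun x _ => by simp), ENNReal.toReal_natCast] at h5
      simpa only [real_half_pow] using h5
    rw [h1, h2]
    simp only [pow_add]
    rw [← Finset.sum_mul]
    have h5 : (b : ℝ) * (1 / 2) ^ b ≤ 1 := by
      have h6 : (b : ℝ) ≤ 2 ^ b := by exact_mod_cast (Nat.lt_two_pow_self).le
      rw [one_div, inv_pow, ← div_eq_mul_inv, div_le_one (by positivity)]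
      exact h6
    exact (mul_le_mul_of_nonneg_right h4 (by positivity)).trans h5
  obtain ⟨M, hM1, hM2, hM3⟩ := KC.kraft_chaitin hreq hb
  obtain ⟨c, hc⟩ := hU.2 M ⟨hM1, hM2⟩
  refine ⟨b + c, fun x hx => ?_⟩
  have h1 := (eq x).1 hx
  have h2 : Fst (x, Nat.find h1) := ⟨Nat.find_spec h1, fun r hr => Nat.find_min h1 hr⟩
  obtain ⟨τ, h3, h4⟩ := hM3 (encode (x, Nat.find h1)) (g x + b) (out x)
    (by simp only [req, ht1 _ h2, Option.map_some])
  obtain ⟨τ', h5, h6⟩ := hc τ _ h4
  exact (KU_le h6).trans (by omega)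

/-- Sets that are low for Martin-Lof randomness are K-trivial. -/
theorem ktrivial_of_low {U : List Bool →. List Bool} (hU : IsUniversal U) {A : ℕ → Bool}
    (hA : ∀ X, MLR zero X → MLR A X) : KTrivial U A := by
  classical
  let ES : List Bool × (List Bool × List Bool) → Prop := fun x =>
    List.replicate x.2.2.length false ∈ U x.2.1 ∧ x.1.take x.2.2.length = x.2.2
  have hES : S1 ES := by
    refine S1.and ((s1_output hU.1.1).comp
      (f := fun x : List Bool × (List Bool × List Bool) => (x.2.1, x.2.2.length)) ?_)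
      (S1.of_prim ?_)
    · exact (Primrec.fst.comp Primrec.snd).pair
        (Primrec.list_length.comp (Primrec.snd.comp Primrec.snd))
    · exact Primrec.eq.comp (Primrec.list_take.comp
        (Primrec.list_length.comp (Primrec.snd.comp Primrec.snd)) Primrec.fst)
        (Primrec.snd.comp Primrec.snd)
  have hkey : ∀ (x : List Bool × List Bool) s, ES (pre A s, x) → x.2 = pre A x.2.length := by
    rintro x s ⟨-, h⟩
    simp only at h
    refine pre_eq_of_prefix (n := s) ?_
    rw [← h]
    exact List.take_prefix _ _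
  obtain ⟨R, hR, hcov, b, hb⟩ := cover (β := List Bool × List Bool) hA
    (g := fun x => x.1.length) (Primrec.list_length.comp Primrec.fst) hES (by
      intro F hF
      have h1 : ∑ x ∈ F, (1 / 2 : ℝ≥0∞) ^ x.1.length =
          ∑ τ ∈ F.image Prod.fst, (1 / 2 : ℝ≥0∞) ^ τ.length := by
        rw [Finset.sum_image]
        rintro ⟨τ, σ⟩ h3 ⟨τ', σ'⟩ h4 h5
        simp only at h5
        subst h5
        obtain ⟨s, h6⟩ := hF _ h3
        obtain ⟨s', h7⟩ := hF _ h4
        have h8 := congrArg List.length (Part.mem_unique h6.1 h7.1)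
        simp only [List.length_replicate] at h8
        have h9 := hkey _ _ h6
        have h10 := hkey _ _ h7
        simp only at h9 h10
        rw [h9, h10, h8]
      rw [h1]
      refine kraft (P := fun τ => (U τ).Dom) hU.1.2 _ ?_
      intro τ hτ
      rw [Finset.mem_image] at hτ
      obtain ⟨x, hx, rfl⟩ := hτ
      obtain ⟨s, h6⟩ := hF _ hx
      exact Part.dom_iff_mem.2 ⟨_, h6.1⟩)
  have hR' : S1 fun x : List Bool × List Bool => ∃ s, R (pre zero s, x) := by
    refine S1.ex (hR.comp (f := fun y : (List Bool × List Bool) × ℕ => (pre zero y.2, y.1)) ?_)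
    refine Primrec.pair ?_ Primrec.fst
    exact Primrec.list_map (Primrec.list_range.comp Primrec.snd) (Primrec.const false)
  obtain ⟨c, hc⟩ := kc_s1 hR' (g := fun x => x.1.length) (Primrec.list_length.comp Primrec.fst)
    (out := fun x => x.2) Primrec.snd hb hU
  refine ⟨c, fun n => ?_⟩
  obtain ⟨τ, h1, h2⟩ := hU.exists_min (List.replicate n false)
  have h3 := hc (τ, pre A n) (hcov _ ⟨n, by simpa [ES] using h2, by simp⟩)
  simp only at h3
  rw [← h1]
  exact h3

theorem main {U : List Bool →. List Bool} (hU : IsUniversal U) {A B : ℕ → Bool}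
    (hLR : ∀ X, MLR B X → MLR (join A B) X) (hB : MLR A B) : KTrivial U A :=
  ktrivial_of_low hU (low_of_LR hLR hB)

/-- the choice of the coding of numbers by strings does not matter -/
theorem code_indep {U : List Bool →. List Bool} (hU : IsUniversal U) {e : ℕ → List Bool}
    (he : Computable e) (hi : Function.Injective e) :
    ∃ c, ∀ n, KU U (List.replicate n false) ≤ KU U (e n) + c := by
  have hS : S1 fun x : List Bool × List Bool => ∃ n : ℕ, e n ∈ U x.1 ∧
      x.2 = (List.range n).map fun _ => false := by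
    refine S1.ex (S1.and ?_ (S1.of_prim ?_))
    · exact (s1_graph hU.1.1).comp_computable
        (f := fun y : (List Bool × List Bool) × ℕ => (y.1.1, e y.2))
        ((Computable.fst.comp Computable.fst).pair (he.comp Computable.snd))
    · exact Primrec.eq.comp (Primrec.snd.comp Primrec.fst)
        (Primrec.list_map (Primrec.list_range.comp Primrec.snd) (Primrec.const false))
  obtain ⟨c, hc⟩ := hU.machine (R := fun σ y => ∃ n : ℕ, e n ∈ U σ ∧
      y = (List.range n).map fun _ => false) hS (by
    rintro σ τ y z ⟨n, h1, rfl⟩ ⟨m, h2, rfl⟩ h3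
    have h4 := hU.1.2 σ τ (Part.dom_iff_mem.2 ⟨_, h1⟩) (Part.dom_iff_mem.2 ⟨_, h2⟩) h3
    subst h4
    rw [hi (Part.mem_unique h1 h2)]
    exact ⟨rfl, rfl⟩)
  refine ⟨c, fun n => ?_⟩
  obtain ⟨τ, h1, h2⟩ := hU.exists_min (e n)
  have h3 := hc τ (List.replicate n false) ⟨n, h2, by
    refine List.ext_getElem (by simp) fun i h1 h2 => by simp⟩
  rw [← h1]
  exact h3

theorem main' {U : List Bool →. List Bool} (hU : IsUniversal U) {e : ℕ → List Bool}
    (he : Computable e) (hi : Function.Injective e) {A B : ℕ → Bool}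
    (hLR : ∀ X, MLR B X → MLR (join A B) X) (hB : MLR A B) :
    ∃ c : ℕ, ∀ n : ℕ, KU U ((List.range n).map A) ≤ KU U (e n) + c := by
  obtain ⟨c, hc⟩ := main hU hLR hB
  obtain ⟨d, hd⟩ := code_indep hU he hi
  refine ⟨c + d, fun n => ?_⟩
  have h1 := hc n
  have h2 := hd n
  omega

end Pool.Agent.H851Z.LR
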