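import Pool.Agent.H851Z.LR.KG

set_option autoImplicit false

namespace Pool.Agent.H851Z.LR

open Pool.Agent.Helper227 MeasureTheory Encodable
open scoped ENNReal

/-- minimal members of a set of strings -/
def Mn (P : List Bool → Prop) (σ : List Bool) : Prop := P σ ∧ ∀ τ, τ <+: σ → P τ → τ = σ

theorem exists_Mn {P : List Bool → Prop} {σ : List Bool} (h : P σ) : ∃ τ, τ <+: σ ∧ Mn P τ := by
  classical
  have h1 : ∃ j, P (σ.take j) := ⟨σ.length, by simpa using h⟩
  have h2 : Nat.find h1 ≤ σ.length := Nat.find_min' h1 (by simpa using h)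
  refine ⟨σ.take (Nat.find h1), List.take_prefix _ _, Nat.find_spec h1, fun τ h3 h4 => ?_⟩
  have h5 : τ <+: σ := h3.trans (List.take_prefix _ _)
  have h6 : Nat.find h1 ≤ τ.length :=
    Nat.find_min' h1 (by rw [← List.prefix_iff_eq_take.1 h5]; exact h4)
  refine h3.eq_of_length_le ?_
  rw [List.length_take]
  omega

theorem lam_open (P : List Bool → Prop) :
    lam {X | ∃ t, P (pre X t)} = ∑' σ : {σ // Mn P σ}, (1 / 2 : ℝ≥0∞) ^ σ.1.length := by
  have h1 : {X | ∃ t, P (pre X t)} = ⋃ σ : {σ // Mn P σ}, cyl σ.1 := by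
    ext X
    simp only [Set.mem_ofPred_eq, Set.mem_iUnion]
    constructor
    · rintro ⟨t, ht⟩
      obtain ⟨τ, h1, h2⟩ := exists_Mn ht
      exact ⟨⟨τ, h2⟩, cyl_subset h1 (mem_cyl_pre X t)⟩
    · rintro ⟨σ, h⟩
      exact ⟨σ.1.length, by rw [mem_cyl_iff.1 h]; exact σ.2.1⟩
  rw [h1, measure_iUnion]
  · exact tsum_congr fun σ => lam_cyl _
  · intro ζ ζ' hne
    rw [Function.onFun, Set.disjoint_left]
    intro Y h3 h4
    apply hne
    apply Subtype.ext
    rw [mem_cyl_iff] at h3 h4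
    rcases Nat.le_total ζ.1.length ζ'.1.length with h | h
    · refine ζ'.2.2 _ ?_ ζ.2.1
      rw [← h3, ← h4]
      exact pre_prefix Y h
    · refine (ζ.2.2 _ ?_ ζ'.2.1).symm
      rw [← h3, ← h4]
      exact pre_prefix Y h
  · exact fun ζ => measurableSet_cyl ζ.1

/-- a Turing reduction given by a primitive recursive relation that is consistent on every
oracle -/
theorem exists_functional {X W : ℕ → Bool} (h : TLe X W) :
    ∃ G : List Bool → List Bool → Prop, PrimrecRel G ∧
      (∀ w σ σ', σ <+: σ' → G w σ' → G w σ) ∧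
      (∀ (Y : ℕ → Bool) s s' σ σ', G (pre Y s) σ → G (pre Y s') σ' → σ.length ≤ σ'.length →
        σ <+: σ') ∧ ∀ n, ∃ s, G (pre W s) (pre X n) := by
  obtain ⟨E, ⟨q, hq, mq, eq⟩, -, eE⟩ := tLe_iff.1 h
  let q' : List Bool → ℕ → Bool → Prop := fun w i b =>
    ∃ t < w.length + 1, q (w.take t, i, b) w.length
  have hq' : PrimrecPred fun x : List Bool × ℕ × Bool => q' x.1 x.2.1 x.2.2 := by
    refine PP.ex_lt (α := List Bool × ℕ × Bool) (f := fun x => x.1.length + 1)
      (p := fun x t => q (x.1.take t, x.2.1, x.2.2) x.1.length) ?_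
      (Primrec.succ.comp (Primrec.list_length.comp Primrec.fst))
    exact hq.comp ((Primrec.list_take.comp Primrec.snd (Primrec.fst.comp Primrec.fst)).pair
      (Primrec.snd.comp Primrec.fst)) (Primrec.list_length.comp (Primrec.fst.comp Primrec.fst))
  have mq' : ∀ (Y : ℕ → Bool) s s' i b, s ≤ s' → q' (pre Y s) i b → q' (pre Y s') i b := by
    rintro Y s s' i b hs ⟨t, h1, h2⟩
    simp only [length_pre] at h1 h2
    refine ⟨t, by simp only [length_pre]; omega, ?_⟩
    rw [take_pre _ _ _ (by omega)] at h2 ⊢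
    rw [length_pre]
    exact mq _ _ _ hs h2
  refine ⟨fun w σ => ∀ i < σ.length, q' w i (σ.getD i false) ∧ ¬ q' w i (!(σ.getD i false)),
    ?_, ?_, ?_, ?_⟩
  · refine PP.all_lt (α := List Bool × List Bool) (f := fun x => x.2.length)
      (p := fun x i => q' x.1 i (x.2.getD i false) ∧ ¬ q' x.1 i (!(x.2.getD i false))) ?_
      (Primrec.list_length.comp Primrec.snd)
    have e1 : Primrec fun x : (List Bool × List Bool) × ℕ => x.1.2.getD x.2 false :=
      (Primrec.list_getD false).comp (Primrec.snd.comp Primrec.fst) Primrec.snd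
    refine PrimrecPred.and ?_ (PrimrecPred.not ?_)
    · exact hq'.comp (f := fun x : (List Bool × List Bool) × ℕ => (x.1.1, x.2, x.1.2.getD x.2 false))
        ((Primrec.fst.comp Primrec.fst).pair (Primrec.snd.pair e1))
    · exact hq'.comp (f := fun x : (List Bool × List Bool) × ℕ =>
          (x.1.1, x.2, !(x.1.2.getD x.2 false)))
        ((Primrec.fst.comp Primrec.fst).pair (Primrec.snd.pair ((Primrec.dom_bool not).comp e1)))
  · rintro w σ σ' ⟨ρ, rfl⟩ h1 i hi
    have h2 := h1 i (by rw [List.length_append]; omega)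
    rwa [List.getD_append _ _ _ _ hi] at h2
  · intro Y s s' σ σ' h1 h2 hl
    rw [List.prefix_iff_eq_take]
    refine List.ext_getElem (by rw [List.length_take]; omega) fun i h3 h4 => ?_
    have h5 := h1 i h3
    have h6 := h2 i (by omega)
    have e1 : σ.getD i false = σ[i] := by simp [List.getD, h3]
    have e2 : σ'.getD i false = σ'[i]'(by omega) := by
      have : i < σ'.length := by omega
      simp [List.getD, this]
    rw [List.getElem_take]
    rw [e1] at h5
    rw [e2] at h6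
    by_contra hne
    have e3 : σ'[i]'(by omega) = !σ[i] := by
      revert hne
      cases σ[i] <;> cases σ'[i]'(by omega) <;> simp
    rcases Nat.le_total s s' with hs | hs
    · apply h6.2
      rw [e3, Bool.not_not]
      exact mq' Y s s' i _ hs h5.1
    · apply h5.2
      rw [← e3]
      exact mq' Y s' s i _ hs h6.1
  · have h1 : ∀ i, ∃ s, q' (pre W s) i (X i) := by
      intro i
      obtain ⟨s, hs⟩ := (eE i (X i)).1 rfl
      obtain ⟨r, hr⟩ := (eq _).1 hs
      refine ⟨max s r, s, by simp only [length_pre]; omega, ?_⟩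
      rw [take_pre _ _ _ (le_max_left _ _), length_pre]
      exact mq _ _ _ (le_max_right _ _) hr
    have h2 : ∀ s i, ¬ q' (pre W s) i (!(X i)) := by
      rintro s i ⟨t, h3, h4⟩
      simp only [length_pre] at h3 h4
      rw [take_pre _ _ _ (by omega)] at h4
      have h5 := (eE i (!(X i))).2 ⟨t, (eq _).2 ⟨_, h4⟩⟩
      revert h5
      cases X i <;> simp
    have h3 : ∀ n, ∃ s, ∀ i < n, q' (pre W s) i (X i) := by
      intro n
      induction n with
      | zero => exact ⟨0, fun i hi => absurd hi (by omega)⟩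
      | succ n ih =>
        obtain ⟨s, hs⟩ := ih
        obtain ⟨s', hs'⟩ := h1 n
        refine ⟨max s s', fun i hi => ?_⟩
        rcases Nat.lt_succ_iff_lt_or_eq.1 hi with h4 | h4
        · exact mq' W _ _ _ _ (le_max_left _ _) (hs i h4)
        · rw [h4]
          exact mq' W _ _ _ _ (le_max_right _ _) hs'
    intro n
    obtain ⟨s, hs⟩ := h3 n
    refine ⟨s, fun i hi => ?_⟩
    rw [length_pre] at hi
    rw [pre_getD X _ _ _ hi]
    exact ⟨hs i hi, h2 s i⟩

theorem half_pow_mul (c n : ℕ) :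
    (1 / 2 : ℝ≥0∞) ^ c * (((2 ^ c : ℕ) : ℝ≥0∞) / ((2 ^ n : ℕ) : ℝ≥0∞)) = (1 / 2) ^ n := by
  push_cast
  rw [div_eq_mul_inv, div_eq_mul_inv, one_mul, ← mul_assoc, ← mul_pow,
    ENNReal.inv_mul_cancel (by norm_num) (by norm_num), one_pow, one_mul, ENNReal.inv_pow]

/-- few oracles compute the initial segments of a random sequence -/
theorem few_oracles {G : List Bool → List Bool → Prop} (hG : PrimrecRel G)
    (hcons : ∀ (Y : ℕ → Bool) s s' σ σ', G (pre Y s) σ → G (pre Y s') σ' → σ.length ≤ σ'.length →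
        σ <+: σ') {X : ℕ → Bool} (hX : MLR zero X) :
    ∃ c : ℕ, ∀ n, lam {Y | ∃ t, G (pre Y t) (pre X n)} ≤
      ((2 ^ c : ℕ) : ℝ≥0∞) / ((2 ^ n : ℕ) : ℝ≥0∞) := by
  let E : List Bool × ℕ × List Bool → Prop := fun x =>
    ((2 ^ x.2.1 : ℕ) : ℝ≥0∞) / ((2 ^ x.2.2.length : ℕ) : ℝ≥0∞) < lam {Y | ∃ t, G (pre Y t) x.2.2}
  have hE : S1 E := by
    refine s1_measure_gt (α := List Bool × ℕ × List Bool) (P := fun x η => G η x.2.2)
      (a := fun x => 2 ^ x.2.1) (b := fun x => 2 ^ x.2.2.length) (S1.of_prim ?_) ?_ ?_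
      (fun x => by positivity)
    · exact hG.comp Primrec.snd (Primrec.snd.comp (Primrec.snd.comp Primrec.fst))
    · exact primrec_pow.comp (Primrec.const 2) (Primrec.fst.comp Primrec.snd)
    · exact primrec_pow.comp (Primrec.const 2)
        (Primrec.list_length.comp (Primrec.snd.comp Primrec.snd))
  have hm : ∀ c, lam (UE E zero c) ≤ (1 / 2) ^ c := by
    intro c
    let P : List Bool → Prop := fun σ => E ([], c, σ)
    have h1 : UE E zero c = {X | ∃ t, P (pre X t)} := by
      ext X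
      simp only [UE, Set.mem_ofPred_eq, P, E, exists_const]
    rw [h1, lam_open]
    have h2 : ∀ σ : {σ // Mn P σ}, (1 / 2 : ℝ≥0∞) ^ σ.1.length ≤
        (1 / 2) ^ c * lam {Y | ∃ t, G (pre Y t) σ.1} := by
      intro σ
      rw [← half_pow_mul c σ.1.length]
      exact mul_le_mul' le_rfl (le_of_lt σ.2.1)
    refine (ENNReal.tsum_le_tsum h2).trans ?_
    rw [ENNReal.tsum_mul_left, ← measure_iUnion]
    · exact mul_le_of_le_one_right' prob_le_one
    · intro ζ ζ' hne
      rw [Function.onFun, Set.disjoint_left]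
      rintro Y ⟨t, h3⟩ ⟨t', h4⟩
      apply hne
      apply Subtype.ext
      rcases Nat.le_total ζ.1.length ζ'.1.length with h | h
      · exact ζ'.2.2 _ (hcons Y _ _ _ _ h3 h4 h) ζ.2.1
      · exact (ζ.2.2 _ (hcons Y _ _ _ _ h4 h3 h) ζ'.2.1).symm
    · exact fun ζ => measurableSet_open (fun _ η => G η ζ.1)
  have h1 := hX _ (isMLTest_of_E hE hm)
  rw [Set.mem_iInter, not_forall] at h1
  obtain ⟨c, hc⟩ := h1
  refine ⟨c, fun n => ?_⟩
  by_contra hlt
  apply hc
  refine ⟨0, n, ?_⟩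
  simp only [E, length_pre]
  exact not_le.1 hlt

/-- The Miller-Yu theorem: a random sequence that is computed by an `A`-random sequence is
`A`-random. -/
theorem miller_yu {A X W : ℕ → Bool} (hX : MLR zero X) (hW : MLR A W) (h : TLe X W) :
    MLR A X := by
  classical
  obtain ⟨G, hG, hdown, hcons, htot⟩ := exists_functional h
  obtain ⟨c, hc⟩ := few_oracles hG hcons hX
  intro U hU hXU
  obtain ⟨F, hF, mF, hUF⟩ := hU.exists_E
  let R : List Bool → ℕ × List Bool → Prop := fun v y => ∃ t < y.1 + 1, G (v.take t) y.2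
  have hR : PrimrecRel R := by
    refine PP.ex_lt (α := List Bool × ℕ × List Bool) (f := fun x => x.2.1 + 1)
      (p := fun x t => G (x.1.take t) x.2.2) ?_
      (Primrec.succ.comp (Primrec.fst.comp Primrec.snd))
    exact hG.comp (Primrec.list_take.comp Primrec.snd (Primrec.fst.comp Primrec.fst))
      (Primrec.snd.comp (Primrec.snd.comp Primrec.fst))
  let N : ℕ × List Bool → ℕ := fun y => ((allStr y.1).filter fun v => R v y).length
  have hN : Primrec N :=
    Primrec.list_length.comp (hR.listFilter.comp (primrec_allStr.comp Primrec.fst) Primrec.id)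
  let Φ : ℕ → List Bool → Set (ℕ → Bool) := fun s σ => {Y | R (pre Y s) (s, σ)}
  have hΦ : ∀ s σ Y, Y ∈ Φ s σ ↔ ∃ t ≤ s, G (pre Y t) σ := by
    intro s σ Y
    simp only [Φ, R, Set.mem_ofPred_eq]
    constructor
    · rintro ⟨t, h1, h2⟩
      rw [take_pre _ _ _ (by omega)] at h2
      exact ⟨t, by omega, h2⟩
    · rintro ⟨t, h1, h2⟩
      exact ⟨t, by omega, by rw [take_pre _ _ _ h1]; exact h2⟩
  have hOK : ∀ s σ, N (s, σ) * 2 ^ σ.length ≤ 2 ^ c * 2 ^ s ↔
      lam (Φ s σ) ≤ ((2 ^ c : ℕ) : ℝ≥0∞) / ((2 ^ σ.length : ℕ) : ℝ≥0∞) := by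
    intro s σ
    have h1 := lam_pre_eq s (fun v => R v (s, σ))
    have h2 := dyadic_le_iff (N (s, σ)) s (2 ^ c) σ.length
    rw [← h2]
    simp only [Φ, N]
    rw [h1]
    push_cast
    rfl
  let E : List Bool × ℕ × List Bool → Prop := fun x => ∃ σ : List Bool,
    F (x.1, x.2.1 + c, σ) ∧ (G x.2.2 σ ∧ ∀ j < σ.length + 1,
      N (x.2.2.length, σ.take j) * 2 ^ (σ.take j).length ≤ 2 ^ c * 2 ^ x.2.2.length)
  have hE : S1 E := by
    refine S1.ex (S1.and (hF.comp ?_) (S1.of_prim (PrimrecPred.and ?_ ?_)))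
    · exact (Primrec.fst.comp Primrec.fst).pair ((Primrec.nat_add.comp
        (Primrec.fst.comp (Primrec.snd.comp Primrec.fst)) (Primrec.const c)).pair Primrec.snd)
    · exact hG.comp (Primrec.snd.comp (Primrec.snd.comp Primrec.fst)) Primrec.snd
    · refine PP.all_lt (α := (List Bool × ℕ × List Bool) × List Bool) (f := fun x => x.2.length + 1)
        (p := fun x j => N (x.1.2.2.length, x.2.take j) * 2 ^ (x.2.take j).length ≤
          2 ^ c * 2 ^ x.1.2.2.length) ?_ (Primrec.succ.comp (Primrec.list_length.comp Primrec.snd))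
      have e1 : Primrec fun x : ((List Bool × ℕ × List Bool) × List Bool) × ℕ =>
          x.1.1.2.2.length := Primrec.list_length.comp
            (Primrec.snd.comp (Primrec.snd.comp (Primrec.fst.comp Primrec.fst)))
      have e2 : Primrec fun x : ((List Bool × ℕ × List Bool) × List Bool) × ℕ =>
          x.1.2.take x.2 := Primrec.list_take.comp Primrec.snd (Primrec.snd.comp Primrec.fst)
      exact Primrec.nat_le.comp (Primrec.nat_mul.comp (hN.comp (e1.pair e2))
        (primrec_pow.comp (Primrec.const 2) (Primrec.list_length.comp e2)))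
        (Primrec.nat_mul.comp (Primrec.const (2 ^ c)) (primrec_pow.comp (Primrec.const 2) e1))
  have hm : ∀ k, lam (UE E A k) ≤ (1 / 2) ^ k := by
    intro k
    let P : List Bool → Prop := fun σ => ∃ s, F (pre A s, k + c, σ)
    let Ψ : List Bool → Set (ℕ → Bool) := fun σ => ⋃ s : {s : ℕ //
      lam (Φ s σ) ≤ ((2 ^ c : ℕ) : ℝ≥0∞) / ((2 ^ σ.length : ℕ) : ℝ≥0∞)}, Φ s.1 σ
    have hΨ : ∀ σ, lam (Ψ σ) ≤ 2 ^ c * (1 / 2) ^ σ.length := by
      intro σ
      have hd : Directed (· ⊆ ·) fun s : {s : ℕ //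
          lam (Φ s σ) ≤ ((2 ^ c : ℕ) : ℝ≥0∞) / ((2 ^ σ.length : ℕ) : ℝ≥0∞)} => Φ s.1 σ := by
        have hmono : ∀ s s', s ≤ s' → Φ s σ ⊆ Φ s' σ := by
          intro s s' hs Y hY
          rw [hΦ] at hY ⊢
          obtain ⟨t, h1, h2⟩ := hY
          exact ⟨t, h1.trans hs, h2⟩
        intro s s'
        rcases Nat.le_total s.1 s'.1 with h1 | h1
        · exact ⟨s', hmono _ _ h1, subset_rfl⟩
        · exact ⟨s, subset_rfl, hmono _ _ h1⟩
      simp only [Ψ]
      rw [hd.measure_iUnion]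
      refine iSup_le fun s => s.2.trans (le_of_eq ?_)
      push_cast
      rw [div_eq_mul_inv, one_div, ENNReal.inv_pow]
    have h1 : UE E A k ⊆ ⋃ σ : {σ // Mn P σ}, Ψ σ.1 := by
      rintro Y ⟨s, t, σ, h1, h2, h3⟩
      simp only [length_pre] at h1 h2 h3
      obtain ⟨τ, h4, h5⟩ := exists_Mn (P := P) ⟨s, h1⟩
      have h6 := h3 τ.length (by have := h4.length_le; omega)
      rw [← List.prefix_iff_eq_take.1 h4, hOK] at h6
      simp only [Set.mem_iUnion, Ψ]
      refine ⟨⟨τ, h5⟩, ⟨t, h6⟩, ?_⟩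
      rw [hΦ]
      exact ⟨t, le_rfl, hdown _ _ _ h4 h2⟩
    have h2 : U (k + c) = {X | ∃ t, P (pre X t)} := by
      rw [hUF]
      ext X
      simp only [UE, Set.mem_ofPred_eq, P]
      exact exists_comm
    have h3 := hU.2 (k + c)
    rw [h2, lam_open] at h3
    refine (measure_mono h1).trans ((measure_iUnion_le _).trans ?_)
    have h4 : ∑' σ : {σ // Mn P σ}, lam (Ψ σ.1) ≤
        ∑' σ : {σ // Mn P σ}, 2 ^ c * (1 / 2 : ℝ≥0∞) ^ σ.1.length :=
      ENNReal.tsum_le_tsum fun σ => hΨ σ.1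
    refine h4.trans ?_
    rw [ENNReal.tsum_mul_left]
    refine (mul_le_mul' le_rfl h3).trans (le_of_eq ?_)
    rw [pow_add, mul_comm ((1 / 2 : ℝ≥0∞) ^ k), ← mul_assoc, ← mul_pow, one_div,
      ENNReal.mul_inv_cancel (by norm_num) (by norm_num), one_pow, one_mul]
  refine hW _ (isMLTest_of_E hE hm) ?_
  rw [Set.mem_iInter] at hXU ⊢
  intro k
  have h1 := hXU (k + c)
  rw [hUF] at h1
  obtain ⟨s, t, h1⟩ := h1
  obtain ⟨s', h2⟩ := htot t
  refine ⟨s, s', pre X t, h1, h2, fun j hj => ?_⟩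
  simp only [length_pre] at hj ⊢
  rw [take_pre _ _ _ (by omega), hOK, length_pre]
  refine le_trans (measure_mono ?_) (hc j)
  intro Y hY
  rw [hΦ] at hY
  obtain ⟨t', -, h3⟩ := hY
  exact ⟨t', h3⟩

/-- Under the hypotheses of the problem, `A` is low for Martin-Lof randomness. -/
theorem low_of_LR {A B : ℕ → Bool} (hLR : ∀ X, MLR B X → MLR (join A B) X) (hB : MLR A B)
    (X : ℕ → Bool) (hX : MLR zero X) : MLR A X := by
  obtain ⟨Z, hZ, hXZ⟩ := kucera_gacs B X
  exact miller_yu hX (hB.join_of (hLR Z hZ)) hXZ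

end Pool.Agent.H851Z.LR
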